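import Pool.Agent.V11278.GD.Main

/-!
# Dense graphs of large girth and maps of short displacement

`GirthGT G L`: all cycles of `G` are longer than `L`.  `PathIn G a b u v`: there is a path from `u` to
`v` whose length is between `a` and `b`.

(1) Let all cycles of `G` be longer than `2 R + 1 + h`, and let `f` and `g` be arbitrary maps of the
vertices; `f` moves the vertices of `A` along paths of length between `h` and `R`, and `g` moves the
vertices of `B` along paths of length at most `R`.  Then at most `|A| + |B|` ordered pairs `(u, v)` of
adjacent vertices, `u ∈ A`, `v ∈ B`, have images `f u`, `g v` at distance at most `h`.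

(2) So in graphs as in the girth conjecture (`n` vertices, girth greater than `2 m`, at least
`c n^{1 + 1/m}` edges) at most a proportion `n^{-1/m} / c` of the ordered pairs of adjacent vertices
has adjacent or equal images under maps `f`, `g` of displacement less than `m` (`f` without fixed
points).  For `m = 2` this fails for the displacement `2`: a Singer cycle moves all vertices of the
incidence graph of a projective plane by the distance two.

(3) If `σ` is an endomorphism (for example an automorphism) of a `d`-regular graph with `n` vertices and
girth greater than `2 R + 2`, then at most `d n / (2 (d - 1))` vertices `v` are moved along a path of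
length between `1` and `R`: all the others are fixed or moved by a distance greater than `R`.

Proof.  Let `u`, `v` be adjacent, and let `P`, `Q` be the paths from `u` to `f u` and from `v` to `g v`.
If `v` is not on `P`, then `v`, `P` and a shortest path from `f u` to `g v` contain a path from `v` to
`g v` that begins with the edge `v u`; since there are no short cycles it is `Q`.  So `v` is the second
vertex of `P` or `u` is the second vertex of `Q`.
-/

set_option autoImplicit false

namespace Pool.Agent.Results.MP_97687e_co.ShortDisplacement

open SimpleGraph Pool.Agent.V11278.GD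

theorem result :
    -- (1) the general bound
    (∀ (V : Type) [Finite V] (G : SimpleGraph V) (R h : ℕ), GirthGT G (2 * R + 1 + h) →
      ∀ (A B : Finset V) (f g : V → V), (∀ u ∈ A, PathIn G h R u (f u)) →
        (∀ v ∈ B, PathIn G 0 R v (g v)) →
          {x : V × V | x.1 ∈ A ∧ x.2 ∈ B ∧ G.Adj x.1 x.2 ∧
            ∃ t : G.Walk (f x.1) (g x.2), t.length ≤ h}.ncard ≤ A.card + B.card) ∧
    -- (2) graphs as in the girth conjecture
    (∀ (V : Type) [Finite V] (G : SimpleGraph V) (m : ℕ), 2 ≤ m → GirthGT G (2 * m) →
      ∀ c : ℝ, 0 < c → c * (Nat.card V : ℝ) ^ (1 + 1 / (m : ℝ)) ≤ G.edgeSet.ncard →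
        ∀ f g : V → V, (∀ v, PathIn G 1 (m - 1) v (f v)) → (∀ v, PathIn G 0 (m - 1) v (g v)) →
          ({x : V × V | G.Adj x.1 x.2 ∧ (f x.1 = g x.2 ∨ G.Adj (f x.1) (g x.2))}.ncard : ℝ) ≤
            1 / c * (Nat.card V : ℝ) ^ (-(1 / (m : ℝ))) * (2 * G.edgeSet.ncard)) ∧
    -- (3) endomorphisms of regular graphs
    (∀ (V : Type) [Fintype V] (G : SimpleGraph V) [DecidableRel G.Adj] (d R : ℕ),
      (∀ v, G.degree v = d) → GirthGT G (2 * R + 2) → ∀ (σ : G →g G) (B : Finset V),
        (∀ v ∈ B, PathIn G 1 R v (σ v)) → 2 * d * B.card ≤ d * Fintype.card V + 2 * B.card) :=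
  ⟨fun _ _ G R h hG A B f g hf hg => main G R h hG A B f g hf hg,
    fun _ _ G m hm hG c hc he f g hf hg => dense G m hm hG c hc he f g hf hg,
    fun _ _ G _ d R hd hG σ B hB => regular_endo G d R hd hG σ B hB⟩

end Pool.Agent.Results.MP_97687e_co.ShortDisplacement
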