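import Mathlib
import Pool.Agent.V1118.SpE
import Pool.Agent.Results.MP_97687e_co.AlmostAllOrders

/-!
# Erdős' girth conjecture and groups whose orders are in sparse sequences (MP_97687e_co)

There is a function `K(η)` such that for all real `c > 1` and all `α > 0` outside a set of Hausdorff
dimension smaller than one the following holds for all `η > 0`, `s ≥ 1`: for `N` large, all but at most
`η N` of the numbers `m = ⌊α n ^ c⌋`, `n ≤ N`, have the property of the starting result
`AlmostAllOrders`, with `B = (s log m) ^ K(η)`. Let `G` be any finite group of order at most `s m` which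
acts by automorphisms on a graph `X` with `n` vertices and `e` edges such that all orbits on the
vertices have `m` elements. If `X` has no cycle of length at most `2 k` and `3 R ≤ k`, then
`m ⌊e / n⌋ ^ R ≤ B 4 ^ size(R) n`; and if `X` has at least `c' n ^ (1 + 1 / k)` edges, then
`m ≤ B 4 ^ size(R) (2 / c') ^ R n ^ (1 - R / k)`.

`AlmostAllOrders` is about almost all natural numbers `m`, its exceptional set could contain a sparse
sequence.
-/

set_option autoImplicit false

open Pool.Agent.V1118.SpD Pool.Agent.V1118.SpE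
open Pool.Agent.Results.MP_97687e_co.AlmostAllOrders (Bound)

namespace Pool.Agent.Results.MP_97687e_co.SparseOrders

lemma mono (m s : ℕ) (B B' : ℝ) (hB : 0 < B) (h : B ≤ B') (hb : Bound m s B) : Bound m s B' := by
  intro V _ _ X G _ _ _ h1 h2 h3 k hk hc R hR
  obtain ⟨h4, h5⟩ := hb V X G h1 h2 h3 k hk hc R hR
  refine ⟨h4.trans ?_, fun c hc0 he => (h5 c hc0 he).trans ?_⟩
  · gcongr
  · gcongr

theorem result : ∃ K : ℝ → ℕ, ∀ c : ℝ, 1 < c → ∃ E : Set ℝ, dimH E < 1 ∧
    ∀ α : ℝ, 0 < α → α ∉ E → ∀ η : ℝ, 0 < η → ∀ s : ℕ, 1 ≤ s → ∃ N0 : ℕ, ∀ N : ℕ, N0 ≤ N →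
      (along α c (fun m => ¬ Bound m s ((s * Real.log m) ^ K η)) N : ℝ) ≤ η * N :=
  orders_along Bound mono Pool.Agent.Results.MP_97687e_co.AlmostAllOrders.result

end Pool.Agent.Results.MP_97687e_co.SparseOrders
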