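import Pool.Agent.Y393.SG.Conv

/-!
# The girth conjecture and colourings of graphs of large girth on surfaces

A graph is `(0, k)`-colourable if its vertices can be partitioned into an independent set and a set
inducing a subgraph of maximum degree at most `k`. For `m ≥ 1` all graphs of girth at least `6 m + 1`
which embed on a surface of Euler genus `g ≥ 1` are `(0, ⌊29 g ^ (1 / (m + 1))⌋)`-colourable.

**Theorem.** The girth conjecture for the parameter `m` is true if and only if this bound is best
possible up to the constant (for girth at least `6 m + 1`, or `6 m + 2`, ..., or `6 m + 6`). More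
generally, for every `α > 0` there are graphs of girth greater than `2 m` with `c n ^ (1 + α)` edges
for all large `n` if and only if some graphs of girth at least `6 m + 1` on surfaces of Euler genus
`g` are not `(0, ⌊κ g ^ (α / (1 + α))⌋)`-colourable, for all large `g`; and the upper bounds for the
two problems correspond to each other in the same way. So the girth conjecture for `m` up to factors
`n ^ ε` (for infinitely many `n`) says that `1 / (m + 1)` is the least exponent which is admissible
in the colouring problem.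

The definitions `ZeroCol G k` (`G` is `(0, k)`-colourable) and `EmbedsEulerGenus G g` are in
`Pool/Agent/H968R3/SurfDefs.lean`; the theorems are assembled from `Pool/Agent/Y393/SG`
(starting library: helper393, helper395, helper587), where they were used for `m ≤ 3` only.
-/

set_option autoImplicit false

namespace Pool.Agent.Results.MP_97687e_co.SurfaceColourings

open Pool.Agent.H968R3 Pool.Agent.Y393.SG

/-- For all large `n` there is a graph with `n` vertices, girth greater than `2 m` and at least
`c n ^ (1 + α)` edges. For `α = 1 / m` this is the girth conjecture for the parameter `m`. -/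
def DenseGraphs (m : ℕ) (α : ℝ) : Prop :=
  ∃ c : ℝ, 0 < c ∧ ∃ N : ℕ, ∀ n ≥ N, ∃ G : SimpleGraph (Fin n),
    ((2 * m : ℕ) : ℕ∞) < G.egirth ∧ c * (n : ℝ) ^ (1 + α) ≤ (G.edgeSet.ncard : ℝ)

/-- All graphs with `n` vertices and girth greater than `2 m` have at most `C n ^ (1 + α)` edges. -/
def FewEdges (m : ℕ) (α : ℝ) : Prop :=
  ∃ C : ℝ, 0 < C ∧ ∀ (n : ℕ) (G : SimpleGraph (Fin n)),
    ((2 * m : ℕ) : ℕ∞) < G.egirth → (G.edgeSet.ncard : ℝ) ≤ C * (n : ℝ) ^ (1 + α)

/-- For all large `g` some finite graph of girth at least `l` which embeds on a surface of Euler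
genus `g` is not `(0, ⌊κ g ^ β⌋)`-colourable. -/
def NotColourable (l : ℕ) (β : ℝ) : Prop :=
  ∃ κ : ℝ, 0 < κ ∧ ∃ g₀ : ℕ, ∀ g ≥ g₀, ∃ (V : Type) (_ : Finite V) (G : SimpleGraph V),
    (l : ℕ∞) ≤ G.egirth ∧ EmbedsEulerGenus G g ∧ ¬ ZeroCol G ⌊κ * (g : ℝ) ^ β⌋₊

/-- For all `g ≥ 1` all finite graphs of girth at least `l` which embed on a surface of Euler genus
`g` are `(0, ⌊C g ^ β⌋)`-colourable. -/
def Colourable (l : ℕ) (β : ℝ) : Prop :=
  ∃ C : ℝ, 0 < C ∧ ∀ g : ℕ, 1 ≤ g → ∀ (V : Type) [Finite V] (G : SimpleGraph V),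
    (l : ℕ∞) ≤ G.egirth → EmbedsEulerGenus G g → ZeroCol G ⌊C * (g : ℝ) ^ β⌋₊

/-- **The girth conjecture is equivalent to the sharpness of the bound for `(0, k)`-colourings of
graphs of large girth on surfaces.** -/
theorem result (m l : ℕ) (hm : 1 ≤ m) (hl : 6 * m + 1 ≤ l) (hl2 : l ≤ 6 * m + 6) :
    Colourable l (1 / ((m : ℝ) + 1)) ∧
    -- (1) the girth conjecture for the parameter `m`
    (DenseGraphs m (1 / (m : ℝ)) ↔ NotColourable l (1 / ((m : ℝ) + 1))) ∧
    -- (2) all other exponents: lower bounds
    (∀ α : ℝ, 0 < α → (DenseGraphs m α ↔ NotColourable l (α / (1 + α)))) ∧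
    -- (3) all other exponents: upper bounds
    (∀ α : ℝ, 0 < α → (FewEdges m α ↔ Colourable l (α / (1 + α)))) ∧
    -- (4) the weak form of the girth conjecture, up to `n ^ ε`
    ((∀ α : ℝ, 0 < α → α < 1 / (m : ℝ) → ¬ FewEdges m α) ↔
      ∀ β : ℝ, Colourable l β ↔ 1 / ((m : ℝ) + 1) ≤ β) := by
  have hm0 : (0 : ℝ) < m := by exact_mod_cast hm
  have e1 : 1 / (m : ℝ) / (1 + 1 / (m : ℝ)) = 1 / ((m : ℝ) + 1) := by
    field_simp
  have h2 : ∀ α : ℝ, 0 < α → (DenseGraphs m α ↔ NotColourable l (α / (1 + α))) :=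
    fun α hα => (equiv hm hα hl hl2).symm
  have h3 : ∀ α : ℝ, 0 < α → (FewEdges m α ↔ Colourable l (α / (1 + α))) :=
    fun α hα => (adm_iff_ex hm hα hl hl2).symm
  have h0 : Colourable l (1 / ((m : ℝ) + 1)) :=
    ⟨29, by norm_num, fun g hg V _ G h4 h5 => upper hm hl hg V G h4 h5⟩
  have hmono : ∀ β β' : ℝ, β ≤ β' → Colourable l β → Colourable l β' :=
    fun β β' h h' => adm_mono h h'
  refine ⟨h0, ?_, h2, h3, ?_, ?_⟩
  · have h4 := h2 (1 / (m : ℝ)) (by positivity)
    rwa [e1] at h4
  · intro h β
    constructor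
    · intro hβ
      by_contra hcon
      have hcon' : β < 1 / ((m : ℝ) + 1) := not_le.1 hcon
      have hpos : (0 : ℝ) < 1 / ((m : ℝ) + 1) := by positivity
      -- an exponent `β'` with `max β 0 < β' < 1 / (m + 1)`
      obtain ⟨β', h5, h6⟩ := exists_between (max_lt hcon' hpos)
      have hβ'0 : 0 < β' := lt_of_le_of_lt (le_max_right _ _) h5
      have hβ'1 : β' < 1 := h6.trans_le (by
        rw [div_le_one (by positivity)]; linarith)
      have h7 : Colourable l β' := hmono β β' (le_of_lt (lt_of_le_of_lt (le_max_left _ _) h5)) hβ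
      have h8 : 0 < 1 - β' := by linarith
      have hα : 0 < β' / (1 - β') := by positivity
      have e2 : β' / (1 - β') / (1 + β' / (1 - β')) = β' := by
        field_simp
        ring
      have h9 : β' / (1 - β') < 1 / (m : ℝ) := by
        rw [div_lt_div_iff₀ h8 hm0]
        rw [lt_div_iff₀ (by positivity)] at h6
        nlinarith
      refine h _ hα h9 ((h3 _ hα).2 ?_)
      rw [e2]
      exact h7
    · intro hβ
      exact hmono _ _ hβ h0
  · intro h α hα hα' hcon
    have h5 := (h _).1 ((h3 α hα).1 hcon)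
    rw [div_le_div_iff₀ (by positivity) (by positivity)] at h5
    rw [lt_div_iff₀ hm0] at hα'
    nlinarith

end Pool.Agent.Results.MP_97687e_co.SurfaceColourings
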