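import Pool.Agent.V11163.ZK.Inst

/-!
# Graphs of large girth recognized by tree tensor networks, with cancellations

The vertices are the `n = q ^ m` words of length `m` over an alphabet of `q` letters, in any labelling.
A tree tensor network `Net K V Al W` (`Pool/Agent/TH700/PA/Defs.lean`) has leaves that read one letter
each (with a vector in `K ^ W` for each letter); an inner node combines the vectors of its two children by
an arbitrary bilinear map; the value is a linear form of the vector of the root. The field `K`, the
weights and the tree are arbitrary, so there may be cancellations; the bond dimension is `card W`. The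
network recognizes the graph (`Rec`) if it reads every letter of the two words `x`, `y` at most once
and its value is not zero if and only if `x` and `y` are adjacent (for `x ≠ y`).

(1) If `G` has girth greater than `4` and is recognized with bond dimension `w`, it has at most
`C (q) (log n) ^ 4 w ^ 18 n` edges. (2) Hence graphs of girth greater than `2 k` with `c' n ^ (1 + 1 / k)`
edges, as in the girth conjecture, have bond dimension at least `n ^ γ` for every `γ < 1 / (18 k)` and
large `n`. (3) All graphs are recognized with bond dimension `n`. Only the absence of `K_{2,2}` is used;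
see `Results/MP_7682b0_co/TensorNetworks.lean` for `K_{s,t}` and a sketch of the proof.
-/

set_option autoImplicit false

namespace Pool.Agent.Results.MP_97687e_co.TensorNetworks

open Pool.Agent.V11163.ZK

theorem result :
    -- (1) the bound
    (∀ (m q : ℕ) (K W : Type) [Field K] [Fintype W] (G : SimpleGraph (Fin m → Fin q)),
      Rec K W G → 4 < G.egirth →
      Nat.card G.edgeSet ≤ CC 2 2 q * m ^ 4 * Fintype.card W ^ 18 * q ^ m) ∧
    -- (2) the graphs of the girth conjecture
    (∀ (k q : ℕ) (c' γ : ℝ), 2 ≤ k → 2 ≤ q → 0 < c' → γ < 1 / (18 * k) →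
      ∃ m₀ : ℕ, ∀ (m : ℕ) (K W : Type) [Field K] [Fintype W] (G : SimpleGraph (Fin m → Fin q)),
        m₀ ≤ m → Rec K W G → ((2 * k : ℕ) : ℕ∞) < G.egirth →
        c' * ((q : ℝ) ^ m) ^ (1 + 1 / (k : ℝ)) ≤ Nat.card G.edgeSet →
        ((q : ℝ) ^ m) ^ γ < Fintype.card W) ∧
    -- (3) all graphs are recognized with bond dimension `n`
    (∀ (K : Type) [Field K] (m q : ℕ), 1 ≤ m → 1 ≤ q → ∀ G : SimpleGraph (Fin m → Fin q),
      Rec K (Fin m → Fin q) G) := by
  refine ⟨fun m q K W _ _ G hG hg => ?_, ?_, fun K _ m q hm hq G => universal K hm hq G⟩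
  · exact kst_le 2 2 m q K W G hG (Pool.Agent.H607R2.BW.t_GIR _ G hg)
  · intro k q c' γ hk hq hc hγ
    have hk0 : (0 : ℝ) < k := by exact_mod_cast (by omega : 0 < k)
    obtain ⟨m₀, h⟩ := kst_asy 2 2 q hq (1 / k) γ c' hc (by
      rw [lt_div_iff₀ hk0]
      rw [lt_div_iff₀ (by positivity)] at hγ
      push_cast
      nlinarith)
    refine ⟨m₀, fun m K W _ _ G hm hG hg hE => h m K W G hm hG ?_ hE⟩
    refine Pool.Agent.H607R2.BW.t_GIR _ G (lt_of_le_of_lt ?_ hg)
    have : (4 : ℕ) ≤ 2 * k := by omega
    exact_mod_cast this

end Pool.Agent.Results.MP_97687e_co.TensorNetworks
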